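import Pool.Agent.U575.RO.All
import Pool.Agent.Y755.Fin4

set_option autoImplicit false

/-!
# The fourth moment near the critical line, in the notation of this folder
-/

namespace Pool.Agent.U575.RO

open MeasureTheory Filter Topology Set
open N748.MG

/-- the fourth moment at admissible distances -/
theorem four {d : ℝ → ℝ} (hd : Ad d) :
    Tendsto (fun T : ℝ => (2 * d T) ^ ((2:ℝ) ^ 2) * (1 / T * MR 2 (d T) T)) atTop (𝓝 (H306R2.aF 2)) := by
  have hL : Tendsto (fun T : ℝ => d T * Real.log T) atTop atTop := by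
    refine tendsto_atTop_mono' atTop ?_ hd.tL
    filter_upwards [hd.pos, hd.t0.eventually (gt_mem_nhds (show (0:ℝ) < Real.exp (-1) by positivity)),
      eventually_gt_atTop 1] with T h1 h2 h3
    have h4 : 1 ≤ Real.log (1 / d T) := by
      rw [Real.le_log_iff_exp_le (by positivity), le_div_iff₀ h1]
      calc Real.exp 1 * d T ≤ Real.exp 1 * Real.exp (-1) := by gcongr
        _ = 1 := by rw [← Real.exp_add]; simp
    have h5 : (1:ℝ) ≤ Real.log (1 / d T) ^ 2 := one_le_pow₀ h4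
    exact div_le_self (mul_nonneg h1.le (Real.log_pos h3).le) h5
  have h := Y755.mom_path4 (α := 2) (by norm_num) le_rfl 0 hd.t0 hL
  refine h.congr' ?_
  filter_upwards [eventually_gt_atTop 0] with T hT
  congr 1
  rw [Y755.mom_eq _ _ _ hT, add_zero, one_div T]
  congr 1
  unfold MR
  refine intervalIntegral.integral_congr fun t _ => ?_
  show W184.zn (1 / 2 + d T) t ^ (2 * (2:ℝ)) = mz (d T) t ^ (2 * (2:ℝ))
  congr 1
  unfold W184.zn mz pw
  congr 2
  push_cast
  ring

/-- a polynomial bound for the fourth moment -/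
theorem four_le {d : ℝ → ℝ} (hd : Ad d) : ∃ A : ℝ, ∀ᶠ T : ℝ in atTop, MR 2 (d T) T ≤ T * d T ^ (-A) := by
  refine ⟨5, ?_⟩
  have h1 := (four hd).eventually (gt_mem_nhds (lt_add_one (H306R2.aF 2)))
  have ha : 0 < H306R2.aF 2 := H306R2.aF_pos (by norm_num)
  filter_upwards [h1, hd.pos, hd.t0.eventually (gt_mem_nhds (show (0:ℝ) < 1 / (H306R2.aF 2 + 1) by positivity)),
    eventually_gt_atTop 0] with T h2 h3 h4 h5
  have e1 : (2:ℝ) ^ (2:ℕ) = ((4:ℕ):ℝ) := by norm_num
  rw [e1, Real.rpow_natCast] at h2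
  have e2 : d T ^ (-(5:ℝ)) = (d T ^ 5)⁻¹ := by
    rw [Real.rpow_neg h3.le]
    congr 1
    exact_mod_cast Real.rpow_natCast (d T) 5
  rw [e2]
  have h6 : 0 < d T ^ 4 := by positivity
  have h7 : d T * (H306R2.aF 2 + 1) < 1 := by
    rwa [lt_div_iff₀ (by positivity)] at h4
  have h8 : 1 / T * MR 2 (d T) T * (d T ^ 5) ≤ 1 := by
    have e3 : 1 / T * MR 2 (d T) T * (d T ^ 5) = ((2 * d T) ^ 4 * (1 / T * MR 2 (d T) T)) * d T / 16 := by ring
    rw [e3]
    nlinarith [mul_lt_mul_of_pos_right h2 h3]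
  have h9 : MR 2 (d T) T * d T ^ 5 ≤ T := by
    have : 1 / T * MR 2 (d T) T * (d T ^ 5) = (MR 2 (d T) T * d T ^ 5) / T := by ring
    rw [this, div_le_one h5] at h8
    exact h8
  rw [← div_eq_mul_inv, le_div_iff₀ (by positivity)]
  exact h9

end Pool.Agent.U575.RO
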