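import Pool.Agent.N748.MG.TMA

set_option autoImplicit false

/-! One polynomial bound for a moment near the line gives all lower complex moments. -/

namespace Pool.Agent.U575.RO

open Filter MeasureTheory Topology Complex Pool.Agent.N748.MG

noncomputable section

/-- the real moment near the line -/
def MR (κ r T : ℝ) : ℝ := ∫ t in (0:ℝ)..T, mz r t ^ (2 * κ)

/-- the complex moment near the line -/
def MC (s : ℂ) (r T : ℝ) : ℂ := ∫ t in (0:ℝ)..T, ((mz r t : ℝ) : ℂ) ^ (2 * s)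

lemma norm_cpow_le' {y : ℝ} (hy : 0 ≤ y) (s : ℂ) (hs : 0 ≤ s.re) : ‖((y : ℝ) : ℂ) ^ (2 * s)‖ ≤ y ^ (2 * s.re) := by
  rcases hy.lt_or_eq with h | h
  · rw [Complex.norm_cpow_eq_rpow_re_of_pos h]
    simp
  · subst h
    by_cases h0 : s = 0
    · subst h0; simp
    · have h1 : (2 * s) ≠ 0 := mul_ne_zero two_ne_zero h0
      rw [Complex.ofReal_zero, Complex.zero_cpow h1, norm_zero]
      positivity

lemma pw_split {y P σ κ κ' : ℝ} (hy : 0 ≤ y) (hP : 1 ≤ P) (h0 : 0 ≤ σ) (h1 : σ ≤ κ') (h2 : κ' < κ) :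
    y ^ (2 * σ) ≤ P ^ (2 * κ) + P ^ (-(2 * (κ - κ'))) * y ^ (2 * κ) := by
  have hP0 : 0 < P := by linarith
  have hκ : 0 < κ := by linarith
  rcases le_or_gt y P with h | h
  · have a1 : y ^ (2 * σ) ≤ P ^ (2 * σ) := Real.rpow_le_rpow hy h (by linarith)
    have a2 : P ^ (2 * σ) ≤ P ^ (2 * κ) := Real.rpow_le_rpow_of_exponent_le hP (by linarith)
    have a3 : 0 ≤ P ^ (-(2 * (κ - κ'))) * y ^ (2 * κ) := by positivity
    linarith
  · have hy0 : 0 < y := hP0.trans h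
    have e : y ^ (2 * σ) = y ^ (-(2 * (κ - σ))) * y ^ (2 * κ) := by
      rw [← Real.rpow_add hy0]; congr 1; ring
    have a1 : y ^ (-(2 * (κ - σ))) ≤ P ^ (-(2 * (κ - σ))) :=
      Real.rpow_le_rpow_of_nonpos hP0 h.le (by linarith)
    have a2 : P ^ (-(2 * (κ - σ))) ≤ P ^ (-(2 * (κ - κ'))) :=
      Real.rpow_le_rpow_of_exponent_le hP (by linarith)
    rw [e]
    have a3 : y ^ (-(2 * (κ - σ))) * y ^ (2 * κ) ≤ P ^ (-(2 * (κ - κ'))) * y ^ (2 * κ) :=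
      mul_le_mul_of_nonneg_right (a1.trans a2) (by positivity)
    have a4 : 0 ≤ P ^ (2 * κ) := by positivity
    linarith

lemma two_cpow_le {δ R : ℝ} (h0 : 0 < δ) (h1 : δ ≤ 1 / 16) (hR : 0 ≤ R) (s : ℂ) (hs : ‖s‖ ≤ R) :
    ‖((2 * δ : ℝ) : ℂ) ^ (s ^ 2)‖ ≤ δ ^ (-(R ^ 2)) := by
  have h2 : 0 < 2 * δ := by positivity
  rw [Complex.norm_cpow_eq_rpow_re_of_pos h2]
  have h3 : -(R ^ 2) ≤ (s ^ 2).re := by
    have h4 := Complex.abs_re_le_norm (s ^ 2)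
    rw [norm_pow] at h4
    have h5 : ‖s‖ ^ 2 ≤ R ^ 2 := pow_le_pow_left₀ (norm_nonneg _) hs 2
    have := (abs_le.1 h4).1
    linarith
  calc (2 * δ) ^ (s ^ 2).re ≤ (2 * δ) ^ (-(R ^ 2)) :=
        Real.rpow_le_rpow_of_exponent_ge h2 (by linarith) h3
    _ ≤ δ ^ (-(R ^ 2)) := Real.rpow_le_rpow_of_nonpos h0 (by linarith) (by nlinarith)

lemma mz_meas {δ : ℝ} (h0 : δ ≤ 1 / 16) (s : ℂ) : Measurable fun t : ℝ => ((mz δ t : ℝ) : ℂ) ^ (2 * s) :=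
  (Complex.measurable_ofReal.comp (TMA.cont h0).measurable).pow_const _

lemma mz_int {δ : ℝ} (h0 : δ ≤ 1 / 16) {κ : ℝ} (hκ : 0 ≤ κ) (T : ℝ) :
    IntegrableOn (fun t : ℝ => mz δ t ^ (2 * κ)) (Set.Icc 0 T) := by
  refine ContinuousOn.integrableOn_Icc ?_
  exact ((TMA.cont h0).rpow_const fun t => Or.inr (by linarith)).continuousOn

lemma mzc_int {δ : ℝ} (h0 : δ ≤ 1 / 16) {s : ℂ} (hs : 0 ≤ s.re) (T : ℝ) :
    IntegrableOn (fun t : ℝ => ((mz δ t : ℝ) : ℂ) ^ (2 * s)) (Set.Icc 0 T) := by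
  refine Integrable.mono' (mz_int h0 hs T) (mz_meas h0 s).aestronglyMeasurable
    (Eventually.of_forall fun t => norm_cpow_le' (norm_nonneg _) s hs)

/-- **One polynomial bound gives all lower complex moments.** -/
theorem cx (h : S_CM) {d : ℝ → ℝ} (hd : Ad d) {κ A : ℝ} (hκ : 0 < κ)
    (hM : ∀ᶠ T : ℝ in atTop, MR κ (d T) T ≤ T * (d T) ^ (-A)) {κ' : ℝ} (R : ℝ) {ε : ℝ} (hκ' : κ' < κ) (hε : 0 < ε) :
    ∀ᶠ T : ℝ in atTop, ∀ s : ℂ, ‖s‖ ≤ R → 0 ≤ s.re → s.re ≤ κ' →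
      ‖((2 * d T : ℝ) : ℂ) ^ (s ^ 2) * ((1 / T : ℝ) * MC s (d T) T) - aC s‖ ≤ ε := by
  obtain ⟨Q, hQ⟩ : ∃ Q, Q = max R 1 := ⟨_, rfl⟩
  have hQ1 : 1 ≤ Q := by rw [hQ]; exact le_max_right _ _
  have hQR : R ≤ Q := by rw [hQ]; exact le_max_left _ _
  obtain ⟨q, hq⟩ : ∃ q, q = max κ' 0 := ⟨_, rfl⟩
  have hq0 : 0 ≤ q := by rw [hq]; exact le_max_right _ _
  have hqκ : κ' ≤ q := by rw [hq]; exact le_max_left _ _
  have hqκ2 : q < κ := by rw [hq]; exact max_lt hκ' hκ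
  obtain ⟨A', hA'⟩ : ∃ A', A' = max A 0 := ⟨_, rfl⟩
  have hA0 : 0 ≤ A' := by rw [hA']; exact le_max_right _ _
  have hAA : A ≤ A' := by rw [hA']; exact le_max_left _ _
  obtain ⟨B, hB⟩ : ∃ B, B = (A' + Q ^ 2 + 2) / (2 * (κ - q)) := ⟨_, rfl⟩
  have hκq : 0 < 2 * (κ - q) := by linarith
  have hB0 : 0 < B := by rw [hB]; positivity
  have hBe : 2 * (κ - q) * B = A' + Q ^ 2 + 2 := by rw [hB]; exact mul_div_cancel₀ _ hκq.ne'
  obtain ⟨D, hD⟩ : ∃ D, D = 2 * κ * B + Q ^ 2 + 2 := ⟨_, rfl⟩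
  have hD0 : 0 < D := by rw [hD]; positivity
  have g1 := (h Q D (by linarith) hD0 (ε / 2) (by positivity)).app hd
  have g2 := (Ev.small (C := 2) (c := 2) (e := ε / 2) (by norm_num) (by positivity)).app hd
  have g4 := (Ev.of_le (d := 1 / 16) (by norm_num)).app hd
  filter_upwards [g1, g2, g4, hd.pos, hM, eventually_gt_atTop 0] with T g1 g2 g4 g5 hM hT s hs1 hs2 hs3
  obtain ⟨N, n1, n2, n3, n4, n5⟩ := g1
  set δ := d T with hδ
  have hP1 : 1 ≤ δ ^ (-B) := by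
    rw [Real.rpow_neg g5.le]
    exact (one_le_inv₀ (by positivity)).2 (Real.rpow_le_one g5.le (by linarith) hB0.le)
  have hf := mzc_int g4 hs2 T
  have hg := mz_int g4 hκ.le T
  set E : Set ℝ := Set.Icc 0 T \ N with hE
  have hEm : MeasurableSet E := measurableSet_Icc.diff n1
  have hvE : (volume : Measure ℝ).real E ≤ δ ^ D * T := by
    rw [Measure.real]
    exact ENNReal.toReal_le_of_le_ofReal (by positivity) n3
  have hEfin : volume E < ⊤ := n3.trans_lt ENNReal.ofReal_lt_top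
  -- split the integral
  have e0 : MC s δ T = (∫ t in N, ((mz δ t : ℝ) : ℂ) ^ (2 * s)) + ∫ t in E, ((mz δ t : ℝ) : ℂ) ^ (2 * s) := by
    unfold MC
    rw [intervalIntegral.integral_of_le hT.le, ← integral_Icc_eq_integral_Ioc,
      ← integral_inter_add_sdiff n1 hf, Set.inter_eq_self_of_subset_right n2]
  -- the exceptional set
  have e1 : ‖∫ t in E, ((mz δ t : ℝ) : ℂ) ^ (2 * s)‖ ≤ 2 * (T * δ ^ (Q ^ 2 + 2)) := by
    have i1 : Integrable (fun _ : ℝ => (δ ^ (-B)) ^ (2 * κ)) (volume.restrict E) :=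
      integrableOn_const hEfin.ne
    have i2 : Integrable (fun t : ℝ => (δ ^ (-B)) ^ (-(2 * (κ - q))) * mz δ t ^ (2 * κ)) (volume.restrict E) :=
      (hg.mono_set Set.sdiff_subset).const_mul _
    have b1 : ‖∫ t in E, ((mz δ t : ℝ) : ℂ) ^ (2 * s)‖ ≤
        ∫ t in E, ((δ ^ (-B)) ^ (2 * κ) + (δ ^ (-B)) ^ (-(2 * (κ - q))) * mz δ t ^ (2 * κ)) := by
      refine norm_integral_le_of_norm_le (i1.add i2) (Eventually.of_forall fun t => ?_)
      · exact (norm_cpow_le' (norm_nonneg _) s hs2).trans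
          (pw_split (norm_nonneg _) hP1 hs2 (hs3.trans hqκ) hqκ2)
    have b2 : ∫ t in E, ((δ ^ (-B)) ^ (2 * κ) + (δ ^ (-B)) ^ (-(2 * (κ - q))) * mz δ t ^ (2 * κ)) =
        (volume : Measure ℝ).real E * (δ ^ (-B)) ^ (2 * κ) +
        (δ ^ (-B)) ^ (-(2 * (κ - q))) * ∫ t in E, mz δ t ^ (2 * κ) := by
      rw [integral_add i1 i2, integral_const_mul, setIntegral_const, smul_eq_mul]
    have b3 : ∫ t in E, mz δ t ^ (2 * κ) ≤ T * δ ^ (-A') := by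
      have c1 : ∫ t in E, mz δ t ^ (2 * κ) ≤ ∫ t in Set.Icc 0 T, mz δ t ^ (2 * κ) :=
        setIntegral_mono_set hg (Eventually.of_forall fun t => Real.rpow_nonneg (norm_nonneg _) _)
          (Set.sdiff_subset.eventuallyLE)
      have c2 : ∫ t in Set.Icc 0 T, mz δ t ^ (2 * κ) = MR κ δ T := by
        unfold MR
        rw [intervalIntegral.integral_of_le hT.le, integral_Icc_eq_integral_Ioc]
      rw [c2] at c1
      refine c1.trans (hM.trans ?_)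
      refine mul_le_mul_of_nonneg_left ?_ hT.le
      exact Real.rpow_le_rpow_of_exponent_ge g5 (by linarith) (by linarith)
    rw [b2] at b1
    have p1 : (δ ^ (-B)) ^ (2 * κ) = δ ^ (-(2 * κ * B)) := by
      rw [← Real.rpow_mul g5.le]; congr 1; ring
    have p2 : (δ ^ (-B)) ^ (-(2 * (κ - q))) = δ ^ (A' + Q ^ 2 + 2) := by
      rw [← Real.rpow_mul g5.le]; congr 1; rw [← hBe]; ring
    rw [p1, p2] at b1
    have q1 : (volume : Measure ℝ).real E * δ ^ (-(2 * κ * B)) ≤ T * δ ^ (Q ^ 2 + 2) := by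
      calc _ ≤ (δ ^ D * T) * δ ^ (-(2 * κ * B)) := by gcongr
        _ = T * (δ ^ D * δ ^ (-(2 * κ * B))) := by ring
        _ = T * δ ^ (Q ^ 2 + 2) := by
            rw [← Real.rpow_add g5]; congr 2; rw [hD]; ring
    have q2 : δ ^ (A' + Q ^ 2 + 2) * ∫ t in E, mz δ t ^ (2 * κ) ≤ T * δ ^ (Q ^ 2 + 2) := by
      calc _ ≤ δ ^ (A' + Q ^ 2 + 2) * (T * δ ^ (-A')) := by gcongr
        _ = T * (δ ^ (A' + Q ^ 2 + 2) * δ ^ (-A')) := by ring
        _ = T * δ ^ (Q ^ 2 + 2) := by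
            rw [← Real.rpow_add g5]; congr 2; ring
    linarith
  have e2 : ‖((2 * δ : ℝ) : ℂ) ^ (s ^ 2)‖ ≤ δ ^ (-(Q ^ 2)) :=
    two_cpow_le g5 g4 (by linarith) s (hs1.trans hQR)
  have e3 := n5 s (hs1.trans hQR)
  have hTc : (T : ℂ) ≠ 0 := by exact_mod_cast hT.ne'
  have e4 : ((2 * δ : ℝ) : ℂ) ^ (s ^ 2) * ((1 / T : ℝ) * MC s δ T) - aC s =
      ((1 / T : ℝ) : ℂ) * (((2 * δ : ℝ) : ℂ) ^ (s ^ 2) * (∫ t in N, ((mz δ t : ℝ) : ℂ) ^ (2 * s)) - T * aC s) +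
      ((1 / T : ℝ) : ℂ) * (((2 * δ : ℝ) : ℂ) ^ (s ^ 2) * ∫ t in E, ((mz δ t : ℝ) : ℂ) ^ (2 * s)) := by
    rw [e0]
    push_cast
    field_simp
    ring
  rw [e4]
  have e5 : ‖((1 / T : ℝ) : ℂ)‖ = 1 / T := by
    rw [Complex.norm_real, Real.norm_of_nonneg (by positivity)]
  calc _ ≤ _ := norm_add_le _ _
    _ ≤ 1 / T * (ε / 2 * T) + 1 / T * (δ ^ (-(Q ^ 2)) * (2 * (T * δ ^ (Q ^ 2 + 2)))) := by
        rw [norm_mul, norm_mul, norm_mul, e5]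
        gcongr
        exact e3
    _ = ε / 2 + 2 * (δ ^ (-(Q ^ 2)) * δ ^ (Q ^ 2 + 2)) := by field_simp
    _ = ε / 2 + 2 * δ ^ (2:ℝ) := by
        rw [← Real.rpow_add g5]; congr 3; ring
    _ ≤ ε := by linarith

/-- the real form -/
theorem cx_real (h : S_CM) (hC : S_CON) {d : ℝ → ℝ} (hd : Ad d) {κ A : ℝ} (hκ : 0 < κ)
    (hM : ∀ᶠ T : ℝ in atTop, MR κ (d T) T ≤ T * (d T) ^ (-A)) {k : ℝ} (hk0 : 0 ≤ k) (hk : k < κ) :
    Tendsto (fun T : ℝ => (2 * d T) ^ (k ^ 2) * (1 / T * MR k (d T) T)) atTop (𝓝 (aC k).re) := by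
  rw [Metric.tendsto_nhds]
  intro ε hε
  filter_upwards [cx h hd hκ hM |k| (κ' := k) hk (half_pos hε), hd.pos] with T hT hδ
  have h1 := hT (k : ℂ) (by rw [Complex.norm_real, Real.norm_eq_abs]) (by simpa using hk0) (by simp)
  have e1 : ((k : ℂ) ^ 2) = ((k ^ 2 : ℝ) : ℂ) := by push_cast; rfl
  have e2 : MC (k : ℂ) (d T) T = ((MR k (d T) T : ℝ) : ℂ) := by
    unfold MC MR
    have e3 : (fun t : ℝ => ((mz (d T) t : ℝ) : ℂ) ^ (2 * (k : ℂ))) =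
        fun t : ℝ => ((mz (d T) t ^ (2 * k) : ℝ) : ℂ) := by
      funext t
      have : (2 * (k : ℂ)) = ((2 * k : ℝ) : ℂ) := by push_cast; rfl
      rw [this]
      exact (Complex.ofReal_cpow (norm_nonneg _) _).symm
    rw [e3, intervalIntegral.integral_ofReal]
  rw [e1, e2, ← Complex.ofReal_cpow (by positivity)] at h1
  have h2 := Complex.abs_re_le_norm (((((2 * d T) ^ (k ^ 2) : ℝ) : ℂ)) *
    (((1 / T : ℝ) : ℂ) * ((MR k (d T) T : ℝ) : ℂ)) - aC k)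
  rw [Complex.sub_re, Complex.re_ofReal_mul, Complex.re_ofReal_mul, Complex.ofReal_re] at h2
  rw [Real.dist_eq]
  linarith

end

end Pool.Agent.U575.RO
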