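import Pool.Agent.U575.RO.Sc
import Pool.Agent.U575.MU.Mom2

set_option autoImplicit false

/-! All orders together, and the Lindelöf hypothesis. -/

namespace Pool.Agent.U575.RO

open Complex MeasureTheory Filter Topology Set Pool.Agent.U575.OL Pool.Agent.N748.MG

noncomputable section

/-- from complex to real -/
lemma real_of_cx {d : ℝ → ℝ} (hd : ∀ᶠ T : ℝ in atTop, 0 < d T) {k : ℝ} (hk0 : 0 ≤ k)
    (h : ∀ ε : ℝ, 0 < ε → ∀ᶠ T : ℝ in atTop, ∀ s : ℂ, ‖s‖ ≤ |k| → 0 ≤ s.re → s.re ≤ k →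
      ‖((2 * d T : ℝ) : ℂ) ^ (s ^ 2) * ((1 / T : ℝ) * MC s (d T) T) - aC s‖ ≤ ε) :
    Tendsto (fun T : ℝ => (2 * d T) ^ (k ^ 2) * (1 / T * MR k (d T) T)) atTop (𝓝 (aC k).re) := by
  rw [Metric.tendsto_nhds]
  intro ε hε
  filter_upwards [h (ε / 2) (half_pos hε), hd] with T hT hδ
  have h1 := hT (k : ℂ) (by rw [Complex.norm_real, Real.norm_eq_abs]) (by simpa using hk0) (by simp)
  have e1 : ((k : ℂ) ^ 2) = ((k ^ 2 : ℝ) : ℂ) := by push_cast; rfl
  have e2 : MC (k : ℂ) (d T) T = ((MR k (d T) T : ℝ) : ℂ) := by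
    unfold MC MR
    have e3 : (fun t : ℝ => ((mz (d T) t : ℝ) : ℂ) ^ (2 * (k : ℂ))) =
        fun t : ℝ => ((mz (d T) t ^ (2 * k) : ℝ) : ℂ) := by
      funext t
      have : (2 * (k : ℂ)) = ((2 * k : ℝ) : ℂ) := by push_cast; rfl
      rw [this]
      exact (Complex.ofReal_cpow (norm_nonneg _) _).symm
    rw [e3, intervalIntegral.integral_ofReal]
  rw [e1, e2, ← Complex.ofReal_cpow (by positivity)] at h1
  have h2 := Complex.abs_re_le_norm (((((2 * d T) ^ (k ^ 2) : ℝ) : ℂ)) *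
    (((1 / T : ℝ) : ℂ) * ((MR k (d T) T : ℝ) : ℂ)) - aC k)
  rw [Complex.sub_re, Complex.re_ofReal_mul, Complex.re_ofReal_mul, Complex.ofReal_re] at h2
  rw [Real.dist_eq]
  linarith

variable {c : ℝ → ℝ} {S K : ℝ}

lemma nearC_near (hA : ∀ V : ℝ, (aC V).re = H306R2.aF V) (h : Sc c S K) {κ κ1 : ℝ} (h0 : 0 ≤ κ) (h1 : κ < κ1)
    (hN : NearC c κ1) : Near c κ := by
  intro δ hδ
  rw [← hA]
  exact real_of_cx (ad_of h.big h.small hδ).pos h0 fun ε hε => hN δ hδ |κ| κ ε h1 hε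

/-- a limit gives a power of the logarithm -/
lemma lim_poly {d : ℝ → ℝ} (hd : ∀ᶠ T : ℝ in atTop, 1 / Real.log T ≤ 2 * d T) {κ a : ℝ}
    (h : Tendsto (fun T : ℝ => (2 * d T) ^ (κ ^ 2) * (1 / T * MR κ (d T) T)) atTop (𝓝 a)) :
    ∀ᶠ T : ℝ in atTop, MR κ (d T) T ≤ T * Real.log T ^ (κ ^ 2 + 1) := by
  have hB : 0 < |a| + 1 := by positivity
  filter_upwards [hd, h.eventually_le_const (show a < |a| + 1 by have := le_abs_self a; linarith),
    Real.tendsto_log_atTop.eventually_ge_atTop (|a| + 1), eventually_gt_atTop 0] with T h1 h2 h3 h4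
  have hL : 0 < Real.log T := by linarith
  have h2d : 0 < 2 * d T := lt_of_lt_of_le (by positivity) h1
  have hp : 0 < (2 * d T) ^ (κ ^ 2) := Real.rpow_pos_of_pos h2d _
  have e1 : MR κ (d T) T ≤ (|a| + 1) * T * ((2 * d T) ^ (κ ^ 2))⁻¹ := by
    have : MR κ (d T) T = ((2 * d T) ^ (κ ^ 2) * (1 / T * MR κ (d T) T)) * T * ((2 * d T) ^ (κ ^ 2))⁻¹ := by
      field_simp
    rw [this]
    gcongr
  have e2 : ((2 * d T) ^ (κ ^ 2))⁻¹ ≤ Real.log T ^ (κ ^ 2) := by
    rw [← Real.inv_rpow h2d.le]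
    refine Real.rpow_le_rpow (by positivity) ?_ (sq_nonneg κ)
    rw [inv_le_comm₀ h2d hL, ← one_div]
    exact h1
  calc MR κ (d T) T ≤ (|a| + 1) * T * ((2 * d T) ^ (κ ^ 2))⁻¹ := e1
    _ ≤ Real.log T * T * Real.log T ^ (κ ^ 2) := by gcongr
    _ = T * Real.log T ^ (κ ^ 2 + 1) := by rw [Real.rpow_add hL, Real.rpow_one]; ring

lemma near_poly' (h : Sc c S K) {κ : ℝ} (hN : Near c κ) : Poly c κ := by
  intro δ hδ
  refine ⟨κ ^ 2 + 1, lim_poly (d := fun T => δ * c T / Real.log T) ?_ (hN δ hδ)⟩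
  filter_upwards [((big_top h.big).const_mul_atTop hδ).eventually_ge_atTop 1,
    Real.tendsto_log_atTop.eventually_gt_atTop 0] with T h1 h2
  rw [← mul_div_assoc]
  gcongr
  linarith

theorem tfae_all (hCM : S_CM) (hA : ∀ V : ℝ, (aC V).re = H306R2.aF V) (h : Sc c S K) : List.TFAE [
    ∀ κ : ℝ, 0 < κ → Line c κ, ∀ κ : ℝ, 0 < κ → Near c κ, ∀ κ : ℝ, 0 < κ → Poly c κ,
    ∀ κ : ℝ, 0 < κ → NearC c κ] := by
  tfae_have 1 → 4 := by
    intro hL κ hκ
    obtain ⟨k, hk⟩ := exists_nat_gt κ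
    have hk1 : 1 ≤ k := by
      have : (0:ℝ) < k := hκ.trans hk
      exact_mod_cast this
    have hN := near_nearC hCM h hk1 (line_near h hk1 (hL k (by linarith)))
    intro δ hδ R κ' ε hκ' hε
    exact hN δ hδ R κ' ε (hκ'.trans hk) hε
  tfae_have 4 → 2 := fun hN κ hκ => nearC_near hA h hκ.le (lt_add_one κ) (hN (κ + 1) (by linarith))
  tfae_have 2 → 3 := fun hN κ hκ => near_poly' h (hN κ hκ)
  tfae_have 3 → 1 := by
    intro hP κ hκ
    obtain ⟨k, hk⟩ := exists_nat_gt κ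
    have hk1 : 1 ≤ k := by
      have : (0:ℝ) < k := hκ.trans hk
      exact_mod_cast this
    exact line_down le_rfl hκ hk.le (poly_line h (hP k (by linarith)))
      ((big_top h.big).eventually_ge_atTop 0)
  tfae_finish

/-! ### the Lindelöf hypothesis -/

lemma LH_J (h : MU.LH) (j n : ℕ) : ∀ᶠ T : ℝ in atTop, J j 0 (2 * T) ≤ T * Real.exp (Real.log T / (n + 2)) := by
  obtain ⟨C, -, hC⟩ := MU.LH_moment h j (1 / (2 * ((n:ℝ) + 2))) (by positivity)
  have hJ : ∀ T : ℝ, 1 ≤ T → J j 0 T ≤ C * T ^ (1 + 1 / (2 * ((n:ℝ) + 2))) := by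
    intro T hT
    refine le_trans (le_of_eq ?_) (hC T hT)
    unfold J Z pt
    congr 1
    funext t
    congr 3
    push_cast
    ring
  filter_upwards [(tendsto_rpow_atTop (y := 1 / (2 * ((n:ℝ) + 2))) (by positivity)).eventually_ge_atTop
    (|C| * 2 ^ (1 + 1 / (2 * ((n:ℝ) + 2)))), eventually_ge_atTop 1] with T h1 h2
  have hT0 : 0 < T := by linarith
  have e1 : Real.exp (Real.log T / (n + 2)) = T ^ (1 / (2 * ((n:ℝ) + 2))) * T ^ (1 / (2 * ((n:ℝ) + 2))) := by
    rw [← Real.rpow_add hT0, Real.rpow_def_of_pos hT0]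
    congr 1
    field_simp
    ring
  calc J j 0 (2 * T) ≤ C * (2 * T) ^ (1 + 1 / (2 * ((n:ℝ) + 2))) := hJ (2 * T) (by linarith)
    _ ≤ |C| * (2 * T) ^ (1 + 1 / (2 * ((n:ℝ) + 2))) := by gcongr; exact le_abs_self C
    _ = (|C| * 2 ^ (1 + 1 / (2 * ((n:ℝ) + 2)))) * (T * T ^ (1 / (2 * ((n:ℝ) + 2)))) := by
        rw [Real.mul_rpow two_pos.le hT0.le, Real.rpow_add hT0, Real.rpow_one]; ring
    _ ≤ T ^ (1 / (2 * ((n:ℝ) + 2))) * (T * T ^ (1 / (2 * ((n:ℝ) + 2)))) := by gcongr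
    _ = _ := by rw [e1]; ring

/-- under the Lindelöf hypothesis there is one good scale for all orders -/
lemma LH_scale (h : MU.LH) : ∃ c : ℝ → ℝ, Tendsto (fun T => c T / Real.log (Real.log T) ^ 2) atTop atTop ∧
    Tendsto (fun T => c T / Real.log T) atTop (𝓝 0) ∧
    ∀ j : ℕ, ∀ᶠ T : ℝ in atTop, J j 0 (2 * T) ≤ T * Real.exp (c T) := by
  set P : ℕ → ℕ → Prop := fun n m => ∀ T : ℝ, (m : ℝ) ≤ T → ∀ j ≤ n,
    J j 0 (2 * T) ≤ T * Real.exp (Real.log T / (n + 2)) with hP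
  have hev : ∀ n : ℕ, ∀ᶠ m in atTop, P n m := by
    intro n
    have h1 : ∀ᶠ T : ℝ in atTop, ∀ j ∈ Finset.range (n + 1), J j 0 (2 * T) ≤ T * Real.exp (Real.log T / (n + 2)) :=
      (Finset.eventually_all _).2 fun j _ => LH_J h j n
    obtain ⟨T0, hT0⟩ := h1.exists_forall_of_atTop
    filter_upwards [tendsto_natCast_atTop_atTop.eventually_ge_atTop T0] with m hm T hT j hj
    exact hT0 T (hm.trans hT) j (Finset.mem_range.2 (by omega))
  obtain ⟨φ, hφ, hPφ⟩ := extraction_forall_of_eventually hev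
  have hst := stp_top hφ
  refine ⟨fun T => Real.log (Real.log T) ^ 3 + Real.log T / stp φ T, ?_, ?_, ?_⟩
  · refine tendsto_atTop_mono' _ ?_ ll_top
    filter_upwards [ll_top.eventually_gt_atTop 0, Real.tendsto_log_atTop.eventually_gt_atTop 0] with T h1 h2
    rw [le_div_iff₀ (by positivity)]
    have h3 : 0 ≤ Real.log T / stp φ T := div_nonneg h2.le (by linarith [stp_pos φ T])
    have e : Real.log (Real.log T) * Real.log (Real.log T) ^ 2 = Real.log (Real.log T) ^ 3 := by ring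
    rw [e]; linarith
  · have h1 : Tendsto (fun L : ℝ => Real.log L ^ 3 / L) atTop (𝓝 0) := by
      have := (isLittleO_log_rpow_rpow_atTop ((3:ℕ) : ℝ) (s := 1) one_pos).tendsto_div_nhds_zero
      refine this.congr fun x => ?_
      rw [Real.rpow_natCast, Real.rpow_one]
    have h2 := (h1.comp Real.tendsto_log_atTop).add (tendsto_const_nhds (x := (1:ℝ)).div_atTop hst)
    rw [add_zero] at h2
    refine h2.congr' ?_
    filter_upwards [Real.tendsto_log_atTop.eventually_gt_atTop 0] with T h3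
    have h4 := stp_pos φ T
    simp only [Function.comp]
    field_simp
  · intro j
    filter_upwards [hst.eventually_ge_atTop ((j:ℝ) + 2), ll_top.eventually_gt_atTop 0,
      Real.tendsto_log_atTop.eventually_gt_atTop 0, eventually_gt_atTop 0] with T h1 h2 h3 h4
    -- the number of elements
    obtain ⟨N, hN⟩ : ∃ N : ℕ, N = ((Finset.range (⌊T⌋₊ + 1)).filter (fun m => 4 * (φ m : ℝ) ≤ T)).card := ⟨_, rfl⟩
    have hst' : stp φ T = 1 + (N : ℝ) := by unfold stp; rw [hN]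
    have hNj : j + 1 ≤ N := by
      have : (j:ℝ) + 1 ≤ N := by rw [hst'] at h1; linarith
      exact_mod_cast this
    -- some element is at least N - 1
    have hex : ∃ m, N - 1 ≤ m ∧ 4 * (φ m : ℝ) ≤ T := by
      by_contra hcon
      push Not at hcon
      have hsub : (Finset.range (⌊T⌋₊ + 1)).filter (fun m => 4 * (φ m : ℝ) ≤ T) ⊆ Finset.range (N - 1) := by
        intro m hm
        rw [Finset.mem_filter] at hm
        rw [Finset.mem_range]
        by_contra h5
        push Not at h5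
        exact absurd hm.2 (not_le.2 (hcon m h5))
      have := Finset.card_le_card hsub
      rw [Finset.card_range, ← hN] at this
      omega
    obtain ⟨m, hm1, hm2⟩ := hex
    have hφm : (φ (N - 1) : ℝ) ≤ T := by
      have h5 : (φ (N - 1) : ℝ) ≤ φ m := by exact_mod_cast hφ.monotone hm1
      have h6 : (0:ℝ) ≤ φ m := Nat.cast_nonneg _
      linarith
    have h7 := hPφ (N - 1) T hφm j (by omega)
    refine h7.trans ?_
    have e1 : ((N - 1 : ℕ) : ℝ) + 2 = stp φ T := by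
      rw [hst', Nat.cast_sub (by omega)]; push_cast; ring
    rw [e1]
    gcongr
    have : 0 ≤ Real.log (Real.log T) ^ 3 := by positivity
    linarith

lemma ad_log {d : ℝ → ℝ} (h : Ad d) : ∀ᶠ T : ℝ in atTop, 1 / Real.log T ≤ d T := by
  filter_upwards [Ev.linv.app h, h.pos, Real.tendsto_log_atTop.eventually_gt_atTop 0] with T h1 h2 h3
  rw [div_le_comm₀ h3 h2]
  exact h1

/-- polynomial bounds near the line give the Lindelöf hypothesis -/
lemma LH_of_poly {d : ℝ → ℝ} (hd : Ad d) (h : ∀ k : ℕ, ∃ A : ℝ, ∀ᶠ T : ℝ in atTop,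
    MR k (d T) T ≤ T * Real.log T ^ A) : MU.LH := by
  have key : ∀ k : ℕ, ∀ᶠ T : ℝ in atTop, J k 0 (2 * T) ≤ T ^ 2 := by
    intro k
    obtain ⟨A, hA⟩ := h k
    obtain ⟨m, hm⟩ := exists_nat_ge A
    have h2 : Tendsto (fun T : ℝ => 2 * T) atTop atTop := tendsto_id.const_mul_atTop two_pos
    have hk0 : (0:ℝ) ≤ k := Nat.cast_nonneg k
    have hs : (0:ℝ) < 1 / (64 * (k + 1)) := by positivity
    have hlog2 : ∀ T : ℝ, 2 ≤ T → Real.log (2 * T) ≤ 2 * Real.log T := by
      intro T hT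
      have h4 : Real.log (2 * T) ≤ Real.log (T ^ 2) := Real.log_le_log (by positivity) (by nlinarith)
      rw [Real.log_pow] at h4
      exact_mod_cast h4
    obtain ⟨C', hC', hc⟩ := conv2 k m (c := fun T => d T * Real.log T)
      (cb := fun T => 1 / (64 * (k + 1)) * Real.log T)
      (by
        filter_upwards [hd.pos, Real.tendsto_log_atTop.eventually_gt_atTop 0] with T h1 h2
        positivity)
      (by
        filter_upwards [hd.t0.eventually_le_const hs, Real.tendsto_log_atTop.eventually_gt_atTop 0] with T h1 h2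
        gcongr)
      (S := 1)
      (fun x hx y hy hxy => mul_le_mul_of_nonneg_left (Real.log_le_log (by
        have : (1:ℝ) ≤ x := hx
        linarith) hxy) hs.le)
      (by
        filter_upwards [eventually_ge_atTop 2] with T hT
        calc 2 * (k + 1) * (1 / (64 * (k + 1)) * Real.log (2 * T)) = 1 / 32 * Real.log (2 * T) := by field_simp; ring
          _ ≤ 1 / 32 * (2 * Real.log T) := by gcongr; exact hlog2 T hT
          _ = _ := by ring)
      (by
        filter_upwards [hd.t0.eventually_le_const (show (0:ℝ) < 1 / 4 by norm_num),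
          Real.tendsto_log_atTop.eventually_gt_atTop 0] with T h1 h2
        gcongr)
      (C := 1) (by
        filter_upwards [hA, Real.tendsto_log_atTop.eventually_ge_atTop 1, eventually_gt_atTop 0] with T h1 h3 h4
        rw [MR_nat] at h1
        have e : d T * Real.log T / Real.log T = d T := by
          have : Real.log T ≠ 0 := by linarith
          field_simp
        rw [e, one_mul]
        refine h1.trans ?_
        refine mul_le_mul_of_nonneg_left ?_ h4.le
        rw [← Real.rpow_natCast]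
        exact Real.rpow_le_rpow_of_exponent_le h3 hm)
    filter_upwards [h2.eventually hc, ev_log_small (C' * 2 ^ (m + 1)) m (s := 1 / 4) (by norm_num),
      eventually_ge_atTop 2, Real.tendsto_log_atTop.eventually_ge_atTop 1] with T h1 h3 h4 h5
    have hT0 : 0 < T := by linarith
    have hlb := hlog2 T h4
    have hlb0 : 0 ≤ Real.log (2 * T) := Real.log_nonneg (by linarith)
    have e1 : 2 * (k + 1) * (1 / (64 * (k + 1)) * Real.log (2 * (2 * T))) ≤ 1 / 4 * Real.log T := by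
      have e2 : Real.log (2 * (2 * T)) ≤ 4 * Real.log T := by
        have := hlog2 (2 * T) (by linarith)
        linarith
      calc 2 * (k + 1) * (1 / (64 * (k + 1)) * Real.log (2 * (2 * T))) = 1 / 32 * Real.log (2 * (2 * T)) := by
            field_simp; ring
        _ ≤ 1 / 32 * (4 * Real.log T) := by gcongr
        _ ≤ _ := by linarith
    calc J k 0 (2 * T) ≤ C' * (2 * T * Real.log (2 * T) ^ m) *
          Real.exp (2 * (k + 1) * (1 / (64 * (k + 1)) * Real.log (2 * (2 * T)))) := h1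
      _ ≤ C' * (2 * T * (2 * Real.log T) ^ m) * Real.exp (1 / 4 * Real.log T) := by gcongr
      _ = (C' * 2 ^ (m + 1) * Real.log T ^ m) * T * T ^ (1 / 4 : ℝ) := by
          rw [mul_pow, Real.rpow_def_of_pos hT0, mul_comm (Real.log T) (1 / 4)]; ring
      _ ≤ T ^ (1 / 4 : ℝ) * T * T ^ (1 / 4 : ℝ) := by gcongr
      _ = T ^ (1 / 4 : ℝ) * T ^ (1 : ℝ) * T ^ (1 / 4 : ℝ) := by rw [Real.rpow_one]
      _ = T ^ (3 / 2 : ℝ) := by rw [← Real.rpow_add hT0, ← Real.rpow_add hT0]; norm_num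
      _ ≤ T ^ (2 : ℝ) := Real.rpow_le_rpow_of_exponent_le (by linarith) (by norm_num)
      _ = T ^ 2 := by norm_cast
  refine MU.LH_of_moments 0 1 one_pos fun η hη => ?_
  obtain ⟨k, hk⟩ := exists_nat_ge (2 / η)
  have hk1 : 2 ≤ η * k := by
    rw [div_le_iff₀ hη] at hk
    linarith
  obtain ⟨T0, hT0⟩ := (key k).exists_forall_of_atTop
  refine ⟨k, (by gcongr; norm_num : 1 / η ≤ 2 / η).trans hk, max T0 1, fun T hT => ⟨fun _ => 1, ?_, ?_⟩⟩
  · have hT1 : 1 ≤ T := (le_max_right _ _).trans hT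
    refine ⟨fun s _ _ _ _ => ⟨analyticAt_const, ?_⟩, fun s _ _ _ _ => ?_⟩
    · simp
    · simp
  · have hT1 : 1 ≤ T := (le_max_right _ _).trans hT
    have h1 := hT0 T ((le_max_left _ _).trans hT)
    have e1 : ∀ t : ℝ, ‖riemannZeta (1 / 2 + t * I) * (1:ℂ)‖ ^ (2 * k) = Z k 0 t := by
      intro t
      rw [mul_one]
      unfold Z pt
      congr 3
      push_cast
      ring
    simp only [e1]
    have hcn := Z_cont k (r := 0) (by norm_num)
    have e2 : ∫ t in T..(2 * T), Z k 0 t ≤ J k 0 (2 * T) := by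
      have h3 := intervalIntegral.integral_add_adjacent_intervals (a := 0) (b := T) (c := 2 * T)
        (hcn.intervalIntegrable (μ := volume) _ _) (hcn.intervalIntegrable _ _)
      have h4 := J_nonneg k 0 (T := T) (by linarith)
      unfold J at h4 ⊢
      linarith
    refine e2.trans (h1.trans ?_)
    calc T ^ 2 = T ^ (2:ℝ) := by norm_cast
      _ ≤ T ^ (η * k) := Real.rpow_le_rpow_of_exponent_le hT1 hk1

theorem LH_tfae (hCM : S_CM) (hA : ∀ V : ℝ, (aC V).re = H306R2.aF V) : List.TFAE [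
    MU.LH,
    ∃ d : ℝ → ℝ, Ad d ∧ ∀ κ : ℝ, 0 < κ →
      Tendsto (fun T : ℝ => (2 * d T) ^ (κ ^ 2) * (1 / T * MR κ (d T) T)) atTop (𝓝 (H306R2.aF κ)),
    ∃ d : ℝ → ℝ, Ad d ∧ ∀ R ε : ℝ, 0 < ε → ∀ᶠ T : ℝ in atTop, ∀ s : ℂ, ‖s‖ ≤ R → 0 ≤ s.re →
      ‖((2 * d T : ℝ) : ℂ) ^ (s ^ 2) * ((1 / T : ℝ) * MC s (d T) T) - aC s‖ ≤ ε,
    ∃ d : ℝ → ℝ, Ad d ∧ ∀ k : ℕ, ∃ A : ℝ, ∀ᶠ T : ℝ in atTop, MR k (d T) T ≤ T * Real.log T ^ A] := by
  tfae_have 1 → 3 := by
    intro h
    obtain ⟨c, hc1, hc2, hc3⟩ := LH_scale h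
    have had : Ad (fun T => 1 * c T / Real.log T) := ad_of hc1 hc2 one_pos
    simp only [one_mul] at had
    refine ⟨fun T => c T / Real.log T, had, fun R ε hε => ?_⟩
    obtain ⟨k, hk⟩ := exists_nat_gt (max R 1)
    have hk1 : 1 ≤ k := by
      have : (1:ℝ) < k := (le_max_right _ _).trans_lt hk
      exact_mod_cast this.le
    have hk0 : (0:ℝ) < k := by exact_mod_cast hk1
    have hAs : Asym k c := by
      refine fwd hk1 (big_top hc1) hc2 (θ := 1) zero_le_one one_lt_two (C := 1) ?_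
      filter_upwards [hc3 k, Real.tendsto_log_atTop.eventually_ge_atTop 1, eventually_gt_atTop 0] with T h1 h2 h3
      rw [one_mul, one_mul]
      refine h1.trans ?_
      have h4 : 1 ≤ Real.log T ^ (k ^ 2) := one_le_pow₀ h2
      gcongr
      exact le_mul_of_one_le_right h3.le h4
    have hp := asym_poly (big_top hc1) hc2 hAs
    have := cx hCM had hk0 hp R (κ' := R) ((le_max_left _ _).trans_lt hk) hε
    filter_upwards [this] with T hT s hs1 hs2
    exact hT s hs1 hs2 (((le_abs_self _).trans (Complex.abs_re_le_norm s)).trans hs1)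
  tfae_have 3 → 2 := by
    rintro ⟨d, hd, h⟩
    refine ⟨d, hd, fun κ hκ => ?_⟩
    rw [← hA]
    refine real_of_cx hd.pos hκ.le fun ε hε => ?_
    filter_upwards [h |κ| ε hε] with T hT s h1 h2 _
    exact hT s h1 h2
  tfae_have 2 → 4 := by
    rintro ⟨d, hd, h⟩
    refine ⟨d, hd, fun k => ?_⟩
    rcases Nat.eq_zero_or_pos k with h0 | h0
    · subst h0
      refine ⟨0, ?_⟩
      filter_upwards [eventually_gt_atTop 0] with T hT
      unfold MR
      simp
    · refine ⟨(k:ℝ) ^ 2 + 1, lim_poly ?_ (h k (by exact_mod_cast h0))⟩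
      filter_upwards [ad_log hd, hd.pos] with T h1 h2
      linarith
  tfae_have 4 → 1 := by
    rintro ⟨d, hd, h⟩
    exact LH_of_poly hd h
  tfae_finish

end

end Pool.Agent.U575.RO
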