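import Pool.Agent.U575.OL.Tfae

set_option autoImplicit false

/-! From the right of the line back to the line, with general powers of the logarithm. -/

namespace Pool.Agent.U575.RO

open Complex MeasureTheory Filter Topology Set Pool.Agent.U575.OL

noncomputable section

/-- from the right of the line to the line -/
theorem conv2 (k m : ℕ) {c cb : ℝ → ℝ} (h0 : ∀ᶠ T : ℝ in atTop, 0 ≤ c T) (hle : ∀ᶠ T : ℝ in atTop, c T ≤ cb T)
    {S : ℝ} (hmono : MonotoneOn cb (Ici S))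
    (hcs : ∀ᶠ T : ℝ in atTop, 2 * (k + 1) * cb (2 * T) ≤ 1 / 16 * Real.log T)
    (h4 : ∀ᶠ T : ℝ in atTop, c T ≤ 1 / 4 * Real.log T) {C : ℝ}
    (hJ : ∀ᶠ T : ℝ in atTop, J k (c T / Real.log T) T ≤ C * (T * Real.log T ^ m)) :
    ∃ C' : ℝ, 0 ≤ C' ∧ ∀ᶠ T : ℝ in atTop, J k 0 T ≤ C' * (T * Real.log T ^ m) *
      Real.exp (2 * (k + 1) * cb (2 * T)) := by
  obtain ⟨C1, hC1, h1⟩ := line_le k
  obtain ⟨X0, hX0, hBA⟩ := BA k (η := 1) one_pos le_rfl
  obtain ⟨Cp, q, hCp, hp⟩ := J_poly k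
  obtain ⟨S1, hS1⟩ := ((h0.and hJ).and (h4.and hle)).exists_forall_of_atTop
  set D : ℝ := C1 * (|C| * 2 ^ (m + 1) + 3) with hD
  have hD1 : 1 ≤ D := by
    have : 3 ≤ |C| * 2 ^ (m + 1) + 3 := by
      have : 0 ≤ |C| * 2 ^ (m + 1) := by positivity
      linarith
    nlinarith
  set Φ : ℝ → ℝ := fun T => D * (T * Real.log T ^ m) * Real.exp (2 * (k + 1) * cb (2 * T)) with hΦ
  have hk0 : (0:ℝ) ≤ k := Nat.cast_nonneg k
  have h2 : Tendsto (fun T : ℝ => 2 * T) atTop atTop := tendsto_id.const_mul_atTop two_pos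
  have hexp : ∀ᶠ T : ℝ in atTop, Real.exp (2 * (k + 1) * cb (2 * T)) ≤ T ^ (1 / 16 : ℝ) := by
    filter_upwards [hcs, eventually_gt_atTop 0] with T hT hT0
    rw [Real.rpow_def_of_pos hT0, Real.exp_le_exp]
    linarith
  have m1 : ∀ᶠ T : ℝ in atTop, J k 0 T ≤ Φ T + T ^ (-(1 / 2 : ℝ)) * J k 0 (3 * T) := by
    filter_upwards [hexp, eventually_ge_atTop S1, eventually_ge_atTop X0, eventually_ge_atTop S,
      Real.tendsto_log_atTop.eventually_ge_atTop 1, eventually_ge_atTop 2,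
      (tendsto_rpow_atTop (y := 1 / 8) (by norm_num)).eventually_ge_atTop C1] with
      T hexp hTS1 hTX hTS hL1 hT2 hTC
    have hT0 : 0 < T := by linarith
    obtain ⟨T1, hT1, hT1', hb⟩ := hBA T hTX
    have hT1b : T1 ≤ 2 * T := by linarith
    have hT10 : 0 < T1 := by linarith
    obtain ⟨⟨a0, a1⟩, a2, a3⟩ := hS1 T1 (by linarith)
    have hL1T : 0 < Real.log T1 := Real.log_pos (by linarith)
    have hr0 : 0 ≤ c T1 / Real.log T1 := by positivity
    have hr4 : c T1 / Real.log T1 ≤ 1 / 4 := by rw [div_le_iff₀ hL1T]; exact a2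
    have b1 := h1 T1 (by linarith) _ hr0 hr4
    have e1 : c T1 / Real.log T1 * Real.log T1 = c T1 := by field_simp
    rw [e1] at b1
    have b2 : c T1 ≤ cb (2 * T) :=
      a3.trans (hmono (by rw [mem_Ici]; linarith) (by rw [mem_Ici]; linarith) hT1b)
    have b3 : J k 0 T ≤ J k 0 T1 := J_mono k (by norm_num) hT1
    have hlogT1 : Real.log T1 ≤ 2 * Real.log T := by
      have h1 : Real.log T1 ≤ Real.log (T ^ 2) := Real.log_le_log hT10 (by nlinarith)
      rw [Real.log_pow] at h1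
      exact_mod_cast h1
    set X := T * Real.log T ^ m with hX
    have hX1 : 1 ≤ X := by
      have : 1 ≤ Real.log T ^ m := one_le_pow₀ hL1
      rw [hX]; nlinarith
    have b4 : J k (c T1 / Real.log T1) T1 ≤ |C| * 2 ^ (m + 1) * X := by
      calc _ ≤ C * (T1 * Real.log T1 ^ m) := a1
        _ ≤ |C| * (T1 * Real.log T1 ^ m) := by gcongr; exact le_abs_self C
        _ ≤ |C| * ((2 * T) * (2 * Real.log T) ^ m) := by gcongr
        _ = _ := by rw [mul_pow, hX]; ring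
    have b5 : J k 0 (2 * T) ≤ J k 0 (3 * T) := J_mono k (by norm_num) (by linarith)
    have hJ3 : 0 ≤ J k 0 (3 * T) := J_nonneg k 0 (by linarith)
    have b6 : Br k 0 T1 ≤ T ^ (-(3 / 4 : ℝ)) * J k 0 (3 * T) + 2 := by
      have : T ^ (-(3 / 4 : ℝ)) * J k 0 (2 * T) ≤ T ^ (-(3 / 4 : ℝ)) * J k 0 (3 * T) := by gcongr
      linarith
    set E := Real.exp (2 * (k + 1) * cb (2 * T)) with hE
    have b7 : Real.exp (2 * (k + 1) * c T1) ≤ E := by rw [hE]; gcongr
    have hE0 : 0 < E := Real.exp_pos _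
    have hJr : 0 ≤ J k (c T1 / Real.log T1) T1 := J_nonneg k _ hT10.le
    have hBr : 0 ≤ Br k 0 T1 := Br_nonneg k 0 T1
    have b8 : J k 0 T ≤ C1 * E * (|C| * 2 ^ (m + 1) * X + 3 * X + T ^ (-(3 / 4 : ℝ)) * J k 0 (3 * T)) := by
      calc J k 0 T ≤ C1 * Real.exp (2 * (k + 1) * c T1) * (J k (c T1 / Real.log T1) T1 + 1 + Br k 0 T1) := b3.trans b1
        _ ≤ C1 * E * (J k (c T1 / Real.log T1) T1 + 1 + Br k 0 T1) := by gcongr
        _ ≤ _ := by
            refine mul_le_mul_of_nonneg_left ?_ (by positivity)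
            linarith
    have b9 : C1 * E * (T ^ (-(3 / 4 : ℝ)) * J k 0 (3 * T)) ≤ T ^ (-(1 / 2 : ℝ)) * J k 0 (3 * T) := by
      have : C1 * E * T ^ (-(3 / 4 : ℝ)) ≤ T ^ (-(1 / 2 : ℝ)) := by
        calc C1 * E * T ^ (-(3 / 4 : ℝ)) ≤ T ^ (1 / 8 : ℝ) * T ^ (1 / 16 : ℝ) * T ^ (-(3 / 4 : ℝ)) := by
              gcongr
          _ = T ^ (-(9 / 16 : ℝ)) := by rw [← Real.rpow_add hT0, ← Real.rpow_add hT0]; norm_num
          _ ≤ _ := Real.rpow_le_rpow_of_exponent_le (by linarith) (by norm_num)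
      calc _ = (C1 * E * T ^ (-(3 / 4 : ℝ))) * J k 0 (3 * T) := by ring
        _ ≤ _ := by gcongr
    have b10 : Φ T = C1 * E * (|C| * 2 ^ (m + 1) * X + 3 * X) := by
      simp only [hΦ, hD]
      rw [← hX, ← hE]; ring
    rw [b10]
    calc J k 0 T ≤ _ := b8
      _ = C1 * E * (|C| * 2 ^ (m + 1) * X + 3 * X) + C1 * E * (T ^ (-(3 / 4 : ℝ)) * J k 0 (3 * T)) := by ring
      _ ≤ _ := by gcongr
  have m2 : ∀ᶠ T : ℝ in atTop, T ≤ Φ T := by
    filter_upwards [h2.eventually h0, h2.eventually hle, Real.tendsto_log_atTop.eventually_ge_atTop 1,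
      eventually_ge_atTop 1] with T hc hc' hL hT1
    have hcb : 0 ≤ cb (2 * T) := hc.trans hc'
    have e1 : 1 ≤ Real.exp (2 * (k + 1) * cb (2 * T)) := Real.one_le_exp (by positivity)
    have e2 : 1 ≤ Real.log T ^ m := one_le_pow₀ hL
    simp only [hΦ]
    calc T = 1 * (T * 1) * 1 := by ring
      _ ≤ _ := by gcongr
  have m3 : ∀ᶠ T : ℝ in atTop, Φ T ≤ T ^ (9 / 8 : ℝ) := by
    filter_upwards [hexp, ev_log_small D m (s := 1 / 16) (by norm_num), eventually_ge_atTop 1,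
      Real.tendsto_log_atTop.eventually_ge_atTop 1] with T h3 h4 hT1 hL
    have hT0 : 0 < T := by linarith
    simp only [hΦ]
    calc D * (T * Real.log T ^ m) * Real.exp (2 * (k + 1) * cb (2 * T)) =
          T * (D * Real.log T ^ m) * Real.exp (2 * (k + 1) * cb (2 * T)) := by ring
      _ ≤ T * T ^ (1 / 16 : ℝ) * T ^ (1 / 16 : ℝ) := by gcongr
      _ = T ^ (1:ℝ) * T ^ (1 / 16 : ℝ) * T ^ (1 / 16 : ℝ) := by rw [Real.rpow_one]
      _ = T ^ (9 / 8 : ℝ) := by rw [← Real.rpow_add hT0, ← Real.rpow_add hT0]; norm_num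
  obtain ⟨T0, hT0⟩ := (m1.and (m2.and m3)).exists_forall_of_atTop
  obtain ⟨T1, -, -, hfin⟩ := iter (M := fun T => J k 0 T) (Φ := Φ) (fun T hT => J_nonneg k 0 hT)
    (by linarith : 0 ≤ Cp) hp (T0 := T0) (fun T hT => (hT0 T hT).1) (fun T hT => (hT0 T hT).2.1)
    (fun T hT => (hT0 T hT).2.2)
  refine ⟨2 * D, by positivity, ?_⟩
  filter_upwards [eventually_ge_atTop T1] with T hT
  have := hfin T hT
  simp only [hΦ] at this
  linarith

end

end Pool.Agent.U575.RO
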