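import Pool.Agent.U575.RO.Cx
import Pool.Agent.U575.RO.Conv2

set_option autoImplicit false

/-! All real and complex orders at the scale `c`. -/

namespace Pool.Agent.U575.RO

open Complex MeasureTheory Filter Topology Set Pool.Agent.U575.OL Pool.Agent.N748.MG

noncomputable section

lemma mz_eq (r t : ℝ) : mz r t = ‖riemannZeta (pt r t)‖ := by
  unfold mz pw pt
  congr 2
  push_cast
  ring

lemma MR_nat (k : ℕ) (r T : ℝ) : MR k r T = J k r T := by
  unfold MR J Z
  congr 1
  funext t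
  rw [mz_eq, ← Real.rpow_natCast]
  congr 1
  push_cast; rfl

/-- the scales -/
structure Sc (c : ℝ → ℝ) (S K : ℝ) : Prop where
  mono : MonotoneOn c (Ici S)
  big : Tendsto (fun T => c T / Real.log (Real.log T) ^ 2) atTop atTop
  small : Tendsto (fun T => c T / Real.log T) atTop (𝓝 0)
  Kpos : 0 < K
  dbl : ∀ᶠ T : ℝ in atTop, c (2 * T) ≤ K * c T

lemma ll_top : Tendsto (fun T : ℝ => Real.log (Real.log T)) atTop atTop :=
  Real.tendsto_log_atTop.comp Real.tendsto_log_atTop

lemma big_ll {c : ℝ → ℝ} (h : Tendsto (fun T => c T / Real.log (Real.log T) ^ 2) atTop atTop) {a : ℝ} :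
    ∀ᶠ T : ℝ in atTop, a * Real.log (Real.log T) ≤ c T := by
  filter_upwards [h.eventually_ge_atTop (|a|), ll_top.eventually_ge_atTop 1] with T h1 h2
  rw [le_div_iff₀ (by positivity)] at h1
  have h3 : a * Real.log (Real.log T) ≤ |a| * Real.log (Real.log T) ^ 2 := by
    calc a * Real.log (Real.log T) ≤ |a| * Real.log (Real.log T) := by gcongr; exact le_abs_self a
      _ ≤ |a| * Real.log (Real.log T) ^ 2 := by
          refine mul_le_mul_of_nonneg_left ?_ (abs_nonneg a)
          nlinarith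
  linarith

lemma big_top {c : ℝ → ℝ} (h : Tendsto (fun T => c T / Real.log (Real.log T) ^ 2) atTop atTop) :
    Tendsto c atTop atTop :=
  tendsto_atTop_mono' _ ((big_ll h (a := 1)).mono fun T h => by linarith) ll_top

lemma ad_of {c : ℝ → ℝ} (hb : Tendsto (fun T => c T / Real.log (Real.log T) ^ 2) atTop atTop)
    (ho : Tendsto (fun T => c T / Real.log T) atTop (𝓝 0)) {δ : ℝ} (hδ : 0 < δ) :
    Ad (fun T => δ * c T / Real.log T) := by
  have ht := big_top hb
  have h0 : Tendsto (fun T => δ * c T / Real.log T) atTop (𝓝 0) := by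
    have := ho.const_mul δ
    rw [mul_zero] at this
    refine this.congr fun T => ?_
    ring
  refine ⟨?_, h0, ?_⟩
  · filter_upwards [ht.eventually_gt_atTop 0, Real.tendsto_log_atTop.eventually_gt_atTop 0] with T h1 h2
    positivity
  · refine tendsto_atTop_mono' _ ?_ (hb.const_mul_atTop hδ)
    filter_upwards [(ht.const_mul_atTop hδ).eventually_ge_atTop 1, ht.eventually_gt_atTop 0,
      Real.tendsto_log_atTop.eventually_gt_atTop 0, h0.eventually_le_const (show (0:ℝ) < 1 / 16 by norm_num),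
      ll_top.eventually_gt_atTop 0] with T h1 h2 h3 h4 h5
    have hd : 0 < δ * c T / Real.log T := by positivity
    have hl1 := log_inv_ge hd h4
    have hl2 : Real.log (1 / (δ * c T / Real.log T)) ≤ Real.log (Real.log T) := by
      refine Real.log_le_log (by positivity) ?_
      rw [one_div_div]
      exact div_le_self h3.le h1
    have e1 : δ * c T / Real.log T * Real.log T = δ * c T := by field_simp
    rw [e1, ← mul_div_assoc]
    gcongr

lemma asym_poly {k : ℕ} {c : ℝ → ℝ} (hc : Tendsto c atTop atTop)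
    (ho : Tendsto (fun T => c T / Real.log T) atTop (𝓝 0)) (h : Asym k c) :
    ∀ᶠ T : ℝ in atTop, MR k (c T / Real.log T) T ≤ T * (c T / Real.log T) ^ (-((k : ℝ) ^ 2 + 1)) := by
  unfold Asym at h
  set B := |H306R2.aF k| + 1 with hB
  have hB0 : 0 < B := by positivity
  filter_upwards [h.eventually_le_const (show H306R2.aF k < B by
      have := le_abs_self (H306R2.aF (k:ℝ)); linarith), hc.eventually_gt_atTop 0,
    Real.tendsto_log_atTop.eventually_gt_atTop 0, eventually_gt_atTop 0,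
    ho.eventually_le_const (show (0:ℝ) < 1 / B by positivity)] with T h1 h2 h3 h4 h5
  rw [MR_nat]
  have hX : 0 < T * Real.log T ^ (k ^ 2) := by positivity
  rw [div_le_iff₀ hX] at h1
  have hd : 0 < c T / Real.log T := by positivity
  have e1 : (c T / Real.log T) ^ (-((k : ℝ) ^ 2 + 1)) = (Real.log T / c T) ^ (k ^ 2) * (Real.log T / c T) := by
    rw [Real.rpow_neg hd.le, ← Real.inv_rpow hd.le, inv_div, Real.rpow_add (by positivity), Real.rpow_one]
    congr 1
    rw [← Real.rpow_natCast (Real.log T / c T) (k ^ 2)]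
    push_cast; rfl
  have e2 : B ≤ Real.log T / c T := by
    have h6 : B * (c T / Real.log T) ≤ 1 := by
      calc B * (c T / Real.log T) ≤ B * (1 / B) := by gcongr
        _ = 1 := by field_simp
    rw [le_div_iff₀ h2]
    rw [← mul_div_assoc, div_le_one h3] at h6
    exact h6
  have h6 : J k (c T / Real.log T) T * (c T) ^ (k ^ 2) ≤ B * (T * Real.log T ^ (k ^ 2)) := by
    refine le_trans ?_ h1
    refine mul_le_mul_of_nonneg_left ?_ (J_nonneg k _ h4.le)
    gcongr
    linarith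
  have h7 : J k (c T / Real.log T) T ≤ B * (T * (Real.log T / c T) ^ (k ^ 2)) := by
    rw [div_pow, ← mul_div_assoc, ← mul_div_assoc, le_div_iff₀ (by positivity)]
    exact h6
  rw [e1]
  calc J k (c T / Real.log T) T ≤ B * (T * (Real.log T / c T) ^ (k ^ 2)) := h7
    _ ≤ (Real.log T / c T) * (T * (Real.log T / c T) ^ (k ^ 2)) := by gcongr
    _ = _ := by ring

/-- real form of the asymptotic formula for integers -/
lemma asym_real {k : ℕ} {c : ℝ → ℝ} (hc : Tendsto c atTop atTop) (h : Asym k c) :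
    Tendsto (fun T : ℝ => (2 * (c T / Real.log T)) ^ ((k : ℝ) ^ 2) * (1 / T * MR k (c T / Real.log T) T)) atTop
      (𝓝 (H306R2.aF k)) := by
  unfold Asym at h
  refine h.congr' ?_
  filter_upwards [hc.eventually_gt_atTop 0, Real.tendsto_log_atTop.eventually_gt_atTop 0, eventually_gt_atTop 0] with
    T h2 h3 h4
  rw [MR_nat]
  have e : (2 * (c T / Real.log T)) ^ ((k : ℝ) ^ 2) = (2 * c T) ^ (k ^ 2) / Real.log T ^ (k ^ 2) := by
    rw [← div_pow, ← Real.rpow_natCast (2 * c T / Real.log T) (k ^ 2)]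
    push_cast
    congr 1
    ring
  rw [e]
  field_simp

lemma asym_of_real {k : ℕ} {c : ℝ → ℝ} (hc : Tendsto c atTop atTop)
    (h : Tendsto (fun T : ℝ => (2 * (c T / Real.log T)) ^ ((k : ℝ) ^ 2) * (1 / T * MR k (c T / Real.log T) T)) atTop
      (𝓝 (H306R2.aF k))) : Asym k c := by
  unfold Asym
  refine h.congr' ?_
  filter_upwards [hc.eventually_gt_atTop 0, Real.tendsto_log_atTop.eventually_gt_atTop 0, eventually_gt_atTop 0] with
    T h2 h3 h4
  rw [MR_nat]
  have e : (2 * (c T / Real.log T)) ^ ((k : ℝ) ^ 2) = (2 * c T) ^ (k ^ 2) / Real.log T ^ (k ^ 2) := by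
    rw [← div_pow, ← Real.rpow_natCast (2 * c T / Real.log T) (k ^ 2)]
    push_cast
    congr 1
    ring
  rw [e]
  field_simp

/-- (a) bounds on the line -/
def Line (c : ℝ → ℝ) (κ : ℝ) : Prop := ∀ δ : ℝ, 0 < δ → ∃ C : ℝ, ∀ᶠ T : ℝ in atTop,
  MR κ 0 T ≤ C * T * Real.exp (δ * c T)

/-- (b) asymptotics near the line -/
def Near (c : ℝ → ℝ) (κ : ℝ) : Prop := ∀ δ : ℝ, 0 < δ → Tendsto (fun T : ℝ =>
  (2 * (δ * c T / Real.log T)) ^ (κ ^ 2) * (1 / T * MR κ (δ * c T / Real.log T) T)) atTop (𝓝 (H306R2.aF κ))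

/-- (c) powers of the logarithm near the line -/
def Poly (c : ℝ → ℝ) (κ : ℝ) : Prop := ∀ δ : ℝ, 0 < δ → ∃ A : ℝ, ∀ᶠ T : ℝ in atTop,
  MR κ (δ * c T / Real.log T) T ≤ T * Real.log T ^ A

/-- (d) complex asymptotics near the line -/
def NearC (c : ℝ → ℝ) (κ : ℝ) : Prop := ∀ δ : ℝ, 0 < δ → ∀ R κ' ε : ℝ, κ' < κ → 0 < ε → ∀ᶠ T : ℝ in atTop,
  ∀ s : ℂ, ‖s‖ ≤ R → 0 ≤ s.re → s.re ≤ κ' →
    ‖((2 * (δ * c T / Real.log T) : ℝ) : ℂ) ^ (s ^ 2) * ((1 / T : ℝ) * MC s (δ * c T / Real.log T) T) - aC s‖ ≤ ε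

variable {c : ℝ → ℝ} {S K : ℝ}

lemma Sc.oδ (h : Sc c S K) (δ : ℝ) : Tendsto (fun T => δ * c T / Real.log T) atTop (𝓝 0) := by
  have := h.small.const_mul δ
  rw [mul_zero] at this
  refine this.congr fun T => ?_
  ring

lemma near_iff (h : Sc c S K) (k : ℕ) : Near c k ↔ ∀ δ : ℝ, 0 < δ → Asym k (fun T => δ * c T) := by
  have ht := big_top h.big
  exact forall₂_congr fun δ hδ =>
    ⟨fun h => asym_of_real (ht.const_mul_atTop hδ) h, fun h => asym_real (ht.const_mul_atTop hδ) h⟩

lemma line_near (h : Sc c S K) {k : ℕ} (hk : 1 ≤ k) (hL : Line c k) : Near c k := by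
  rw [near_iff h k, ← scale hk (big_top h.big) h.mono h.small h.Kpos h.dbl]
  intro δ hδ
  obtain ⟨C, hC⟩ := hL δ hδ
  refine ⟨|C|, ?_⟩
  filter_upwards [hC, Real.tendsto_log_atTop.eventually_ge_atTop 1, eventually_gt_atTop 0] with T h1 h2 h3
  rw [MR_nat] at h1
  have h4 : 1 ≤ Real.log T ^ (k ^ 2) := one_le_pow₀ h2
  calc J k 0 T ≤ C * T * Real.exp (δ * c T) := h1
    _ ≤ |C| * T * Real.exp (δ * c T) := by gcongr; exact le_abs_self C
    _ = |C| * (T * 1) * Real.exp (δ * c T) := by ring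
    _ ≤ _ := by gcongr

lemma near_poly (h : Sc c S K) {k : ℕ} (hN : Near c k) : Poly c k := by
  rw [near_iff h k] at hN
  intro δ hδ
  have ht := big_top h.big
  refine ⟨(k:ℝ) ^ 2 + 1, ?_⟩
  filter_upwards [asym_poly (ht.const_mul_atTop hδ) (h.oδ δ) (hN δ hδ),
    (ht.const_mul_atTop hδ).eventually_ge_atTop 1, Real.tendsto_log_atTop.eventually_gt_atTop 0,
    eventually_gt_atTop 0] with T h1 h2 h3 h4
  refine h1.trans ?_
  have hd : 0 < δ * c T / Real.log T := div_pos (by linarith) h3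
  rw [Real.rpow_neg hd.le, ← Real.inv_rpow hd.le, inv_div]
  gcongr
  exact div_le_self h3.le h2

lemma poly_line (h : Sc c S K) {k : ℕ} (hP : Poly c k) : Line c k := by
  intro δ hδ
  have ht := big_top h.big
  have hK := h.Kpos
  obtain ⟨e, he⟩ : ∃ e : ℝ, e = δ / (4 * (k + 1) * K) := ⟨_, rfl⟩
  have he0 : 0 < e := by rw [he]; positivity
  obtain ⟨A, hA⟩ := hP e he0
  obtain ⟨m, hm⟩ := exists_nat_ge A
  have h2 : Tendsto (fun T : ℝ => 2 * T) atTop atTop := tendsto_id.const_mul_atTop two_pos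
  obtain ⟨C', hC', hc⟩ := conv2 k m (c := fun T => e * c T) (cb := fun T => e * c T)
    ((ht.eventually_ge_atTop 0).mono fun T h => by positivity) (Eventually.of_forall fun _ => le_rfl) (S := S)
    (fun x hx y hy hxy => mul_le_mul_of_nonneg_left (h.mono hx hy hxy) he0.le) (by
      have hs : (0:ℝ) < 1 / (64 * (k + 1)) := by positivity
      filter_upwards [h2.eventually (ev_c_small (c := fun T => e * c T) (h.oδ e) hs), eventually_ge_atTop 2] with
        T hT hT2
      have hT0 : 0 < T := by linarith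
      have h3 : Real.log (2 * T) ≤ 2 * Real.log T := by
        have h4 : Real.log (2 * T) ≤ Real.log (T ^ 2) := Real.log_le_log (by positivity) (by nlinarith)
        rw [Real.log_pow] at h4
        exact_mod_cast h4
      calc 2 * (k + 1) * (e * c (2 * T)) ≤ 2 * (k + 1) * (1 / (64 * (k + 1)) * Real.log (2 * T)) := by gcongr
        _ = 1 / 32 * Real.log (2 * T) := by field_simp; ring
        _ ≤ 1 / 32 * (2 * Real.log T) := by gcongr
        _ = _ := by ring)
    (ev_c_small (c := fun T => e * c T) (h.oδ e) (by norm_num : (0:ℝ) < 1 / 4)) (C := 1) (by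
      filter_upwards [hA, Real.tendsto_log_atTop.eventually_ge_atTop 1, eventually_gt_atTop 0] with T h1 h3 h4
      rw [MR_nat] at h1
      refine h1.trans ?_
      rw [one_mul]
      refine mul_le_mul_of_nonneg_left ?_ h4.le
      rw [← Real.rpow_natCast]
      exact Real.rpow_le_rpow_of_exponent_le h3 hm)
  refine ⟨C', ?_⟩
  filter_upwards [hc, h.dbl, big_ll h.big (a := 2 * m / δ), Real.tendsto_log_atTop.eventually_gt_atTop 0,
    eventually_gt_atTop 0] with T h1 h3 h4 h5 h6
  rw [MR_nat]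
  refine h1.trans ?_
  have e1 : Real.log T ^ m = Real.exp (m * Real.log (Real.log T)) := by
    rw [← Real.rpow_natCast, Real.rpow_def_of_pos h5, mul_comm]
  have e2 : 2 * (k + 1) * (e * c (2 * T)) ≤ δ / 2 * c T := by
    calc 2 * (k + 1) * (e * c (2 * T)) ≤ 2 * (k + 1) * (e * (K * c T)) := by gcongr
      _ = δ / 2 * c T := by rw [he]; field_simp; ring
  have e3 : m * Real.log (Real.log T) ≤ δ / 2 * c T := by
    calc m * Real.log (Real.log T) = δ / 2 * (2 * m / δ * Real.log (Real.log T)) := by field_simp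
      _ ≤ δ / 2 * c T := by gcongr
  calc C' * (T * Real.log T ^ m) * Real.exp (2 * (k + 1) * (e * c (2 * T))) =
        C' * T * (Real.exp (m * Real.log (Real.log T)) * Real.exp (2 * (k + 1) * (e * c (2 * T)))) := by
        rw [e1]; ring
    _ = C' * T * Real.exp (m * Real.log (Real.log T) + 2 * (k + 1) * (e * c (2 * T))) := by rw [Real.exp_add]
    _ ≤ C' * T * Real.exp (δ * c T) := by
        gcongr
        linarith

theorem tfae_k (h : Sc c S K) {k : ℕ} (hk : 1 ≤ k) : List.TFAE [Line c k, Near c k, Poly c k] := by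
  tfae_have 1 → 2 := line_near h hk
  tfae_have 2 → 3 := near_poly h
  tfae_have 3 → 1 := poly_line h
  tfae_finish

lemma near_poly_d (h : Sc c S K) {k : ℕ} (hN : Near c k) {δ : ℝ} (hδ : 0 < δ) :
    ∀ᶠ T : ℝ in atTop, MR k (δ * c T / Real.log T) T ≤ T * (δ * c T / Real.log T) ^ (-((k : ℝ) ^ 2 + 1)) := by
  rw [near_iff h k] at hN
  exact asym_poly ((big_top h.big).const_mul_atTop hδ) (h.oδ δ) (hN δ hδ)

lemma near_nearC (hCM : S_CM) (h : Sc c S K) {k : ℕ} (hk : 1 ≤ k) (hN : Near c k) : NearC c k := by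
  intro δ hδ R κ' ε hκ' hε
  have hk0 : (0:ℝ) < k := by exact_mod_cast hk
  exact cx hCM (ad_of h.big h.small hδ) hk0 (near_poly_d h hN hδ) R hκ' hε

lemma line_down (hκ : 0 ≤ (0:ℝ)) {κ κ1 : ℝ} (h0 : 0 < κ) (h1 : κ ≤ κ1) (hL : Line c κ1)
    (hc : ∀ᶠ T : ℝ in atTop, 0 ≤ c T) : Line c κ := by
  intro δ hδ
  obtain ⟨C, hC⟩ := hL δ hδ
  refine ⟨1 + |C|, ?_⟩
  filter_upwards [hC, hc, eventually_gt_atTop 0] with T h2 h3 h4
  have h5 : MR κ 0 T ≤ T + MR κ1 0 T := by
    unfold MR
    have hcn := TMA.cont (δ := 0) (by norm_num)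
    have e1 : (T : ℝ) = ∫ t in (0:ℝ)..T, (1:ℝ) := by simp
    rw [e1]
    have i1 : IntervalIntegrable (fun t => mz 0 t ^ (2 * κ1)) volume 0 (∫ t in (0:ℝ)..T, (1:ℝ)) :=
      (hcn.rpow_const fun t => Or.inr (by linarith)).intervalIntegrable _ _
    rw [← e1] at i1 ⊢
    have e2 : T + ∫ t in (0:ℝ)..T, mz 0 t ^ (2 * κ1) = ∫ t in (0:ℝ)..T, (1 + mz 0 t ^ (2 * κ1)) := by
      rw [intervalIntegral.integral_add (by simp) i1]; simp
    rw [e2]
    refine intervalIntegral.integral_mono_on h4.le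
      ((hcn.rpow_const fun t => Or.inr (by linarith)).intervalIntegrable _ _)
      ((continuous_const.add (hcn.rpow_const fun t => Or.inr (by linarith))).intervalIntegrable _ _) ?_
    intro t _
    have hy : 0 ≤ mz 0 t := norm_nonneg _
    rcases le_or_gt (mz 0 t) 1 with h6 | h6
    · have := Real.rpow_le_one hy h6 (by linarith : 0 ≤ 2 * κ)
      have := Real.rpow_nonneg hy (2 * κ1)
      linarith
    · have := Real.rpow_le_rpow_of_exponent_le h6.le (by linarith : 2 * κ ≤ 2 * κ1)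
      linarith
  have h6 : 1 ≤ Real.exp (δ * c T) := Real.one_le_exp (by positivity)
  calc MR κ 0 T ≤ T + MR κ1 0 T := h5
    _ ≤ T + C * T * Real.exp (δ * c T) := by linarith
    _ ≤ 1 * T * Real.exp (δ * c T) + |C| * T * Real.exp (δ * c T) := by
        have a1 : T * 1 ≤ T * Real.exp (δ * c T) := by gcongr
        have a2 : C * T * Real.exp (δ * c T) ≤ |C| * T * Real.exp (δ * c T) := by gcongr; exact le_abs_self C
        linarith
    _ = _ := by ring

end

end Pool.Agent.U575.RO
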